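import Mathlib

/-!
Brouwer fixed point theorem, analytic proof (Milnor, Rogers).
Core part: there is no C^1 retraction of the closed unit ball onto the sphere.
-/

open MeasureTheory Metric Set Module

namespace Pool.Agent.Lib.Brouwer

section Interp

variable {E : Type*} [NormedAddCommGroup E] [NormedSpace ℝ E] [FiniteDimensional ℝ E]

theorem det_interp (v : Fin (finrank ℝ E + 1) → ℝ) (hv : Function.Injective v) :
    ∃ w : Fin (finrank ℝ E + 1) → ℝ, ∑ j, w j = 1 ∧
      ∀ A : E →L[ℝ] E, (1 + A).det = ∑ j, w j * (1 + v j • A).det := by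
  classical
  refine ⟨fun j => (Lagrange.basis Finset.univ v j).eval 1, ?_, ?_⟩
  · rw [← Polynomial.eval_finsetSum, Lagrange.sum_basis (hv.injOn) Finset.univ_nonempty]
    simp
  · intro A
    let b := Module.finBasis ℝ E
    let M : Matrix (Fin (finrank ℝ E)) (Fin (finrank ℝ E)) ℝ :=
      LinearMap.toMatrix b b (A : E →ₗ[ℝ] E)
    let P : Polynomial ℝ := Matrix.det ((Polynomial.X : Polynomial ℝ) • M.map Polynomial.C +
      (1 : Matrix _ _ ℝ).map Polynomial.C)
    have hP : ∀ t : ℝ, P.eval t = (1 + t • A).det := by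
      intro t
      have h1 : P.eval t = Matrix.det (t • M + 1) := by
        have := (Polynomial.evalRingHom t).map_det ((Polynomial.X : Polynomial ℝ) • M.map Polynomial.C +
          (1 : Matrix _ _ ℝ).map Polynomial.C)
        simp only [Polynomial.coe_evalRingHom] at this
        rw [this]
        congr 1
        ext i j
        simp only [RingHom.mapMatrix_apply, Matrix.add_apply, Matrix.smul_apply, Matrix.map_apply,
          Polynomial.coe_evalRingHom, smul_eq_mul, Polynomial.eval_add, Polynomial.eval_mul,
          Polynomial.eval_X, Polynomial.eval_C]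
      rw [h1, ContinuousLinearMap.det, ← LinearMap.det_toMatrix b]
      congr 1
      simp [M, add_comm, map_add, map_smul]
    have hdeg : P.degree < (Finset.univ : Finset (Fin (finrank ℝ E + 1))).card := by
      have h := Polynomial.natDegree_det_X_add_C_le M (1 : Matrix _ _ ℝ)
      simp only [Fintype.card_fin] at h
      simp only [Finset.card_univ, Fintype.card_fin]
      calc P.degree ≤ (P.natDegree : WithBot ℕ) := Polynomial.degree_le_natDegree
        _ < ((finrank ℝ E + 1 : ℕ) : WithBot ℕ) := by
          exact_mod_cast Nat.lt_succ_of_le h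
    have hI := Lagrange.eq_interpolate hv.injOn hdeg
    have h1 : (1 + A).det = P.eval 1 := by rw [hP]; simp
    rw [h1]
    conv_lhs => rw [hI]
    rw [Lagrange.interpolate_apply, Polynomial.eval_finsetSum]
    refine Finset.sum_congr rfl fun j _ => ?_
    rw [Polynomial.eval_mul, Polynomial.eval_C, hP, mul_comm]

end Interp

variable {E : Type*} [NormedAddCommGroup E] [InnerProductSpace ℝ E] [FiniteDimensional ℝ E]

omit [FiniteDimensional ℝ E] in
theorem lipschitz_trunc (h : E → E) (L : ℝ) (hL : 0 ≤ L)
    (hh : ∀ x ∈ closedBall (0 : E) 1, ∀ y ∈ closedBall (0 : E) 1, ‖h x - h y‖ ≤ L * ‖x - y‖)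
    (h0 : ∀ x, ‖x‖ = 1 → h x = 0) (x y : E) :
    ‖(closedBall (0 : E) 1).indicator h x - (closedBall (0 : E) 1).indicator h y‖
      ≤ L * ‖x - y‖ := by
  have key : ∀ x ∈ closedBall (0 : E) 1, ∀ y, y ∉ closedBall (0 : E) 1 →
      ‖h x‖ ≤ L * ‖x - y‖ := by
    intro x hx y hy
    have hc : ContinuousOn (fun t : ℝ => ‖x + t • (y - x)‖) (Icc 0 1) := by fun_prop
    have hx' : ‖x‖ ≤ 1 := by simpa using hx
    have hy' : 1 < ‖y‖ := by simpa using hy
    obtain ⟨t, ht, ht1⟩ := intermediate_value_Icc zero_le_one hc
      (show (1 : ℝ) ∈ Icc ‖x + (0 : ℝ) • (y - x)‖ ‖x + (1 : ℝ) • (y - x)‖ by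
        constructor
        · simpa using hx'
        · simpa using hy'.le)
    have ht1' : ‖x + t • (y - x)‖ = 1 := ht1
    have h2 := hh x hx (x + t • (y - x)) (by simpa using ht1'.le)
    rw [h0 _ ht1', sub_zero] at h2
    refine h2.trans (mul_le_mul_of_nonneg_left ?_ hL)
    have : x - (x + t • (y - x)) = t • (x - y) := by
      rw [smul_sub, smul_sub]; abel
    rw [this, norm_smul, Real.norm_eq_abs, abs_of_nonneg ht.1]
    exact mul_le_of_le_one_left (norm_nonneg _) ht.2
  by_cases hx : x ∈ closedBall (0 : E) 1 <;> by_cases hy : y ∈ closedBall (0 : E) 1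
  · rw [indicator_of_mem hx, indicator_of_mem hy]; exact hh x hx y hy
  · rw [indicator_of_mem hx, indicator_of_notMem hy, sub_zero]; exact key x hx y hy
  · rw [indicator_of_notMem hx, indicator_of_mem hy, zero_sub, norm_neg, norm_sub_rev]
    exact key y hy x hx
  · rw [indicator_of_notMem hx, indicator_of_notMem hy, sub_zero, norm_zero]; positivity

theorem no_retraction (r : E → E) (hr : ∀ x ∈ closedBall (0 : E) 1, ContDiffAt ℝ 1 r x)
    (h1 : ∀ x ∈ closedBall (0 : E) 1, ‖r x‖ = 1) (h2 : ∀ x, ‖x‖ = 1 → r x = x) : False := by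
  borelize E
  let μ : Measure E := Measure.addHaar
  set B := closedBall (0 : E) 1 with hB
  have hBc : IsCompact B := isCompact_closedBall _ _
  have hBconv : Convex ℝ B := convex_closedBall _ _
  have hBm : MeasurableSet B := isClosed_closedBall.measurableSet
  let h : E → E := fun x => r x - x
  let D : E → (E →L[ℝ] E) := fun x => fderiv ℝ r x - 1
  have hrd : ∀ x ∈ B, HasFDerivAt r (fderiv ℝ r x) x := fun x hx =>
    ((hr x hx).differentiableAt one_ne_zero).hasFDerivAt
  have hhd : ∀ x ∈ B, HasFDerivAt h (D x) x := fun x hx =>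
    (hrd x hx).sub (hasFDerivAt_id x)
  have hDc : ContinuousOn D B := by
    intro x hx
    exact (((hr x hx).continuousAt_fderiv one_ne_zero).sub continuousAt_const).continuousWithinAt
  obtain ⟨L0, hL0⟩ := hBc.exists_bound_of_continuousOn hDc
  set L := max L0 1 with hL
  have hLpos : 0 < L := lt_of_lt_of_le one_pos (le_max_right _ _)
  have hDL : ∀ x ∈ B, ‖D x‖ ≤ L := fun x hx => (hL0 x hx).trans (le_max_left _ _)
  have hLip : ∀ x ∈ B, ∀ y ∈ B, ‖h x - h y‖ ≤ L * ‖x - y‖ := fun x hx y hy =>
    hBconv.norm_image_sub_le_of_norm_hasFDerivWithin_le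
      (fun z hz => (hhd z hz).hasFDerivWithinAt) hDL hy hx
  have hh0 : ∀ x, ‖x‖ = 1 → h x = 0 := fun x hx => by simp [h, h2 x hx]
  -- positivity of the determinant near the identity
  obtain ⟨δ, hδ, hδdet⟩ : ∃ δ > 0, ∀ A : E →L[ℝ] E, ‖A‖ < δ → 0 < (1 + A).det := by
    have hc : ContinuousAt (fun A : E →L[ℝ] E => (1 + A).det) 0 :=
      (ContinuousLinearMap.continuous_det.comp (continuous_const.add continuous_id)).continuousAt
    have h0 : (0 : ℝ) < (fun A : E →L[ℝ] E => (1 + A).det) 0 := by
      simp [ContinuousLinearMap.det]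
    have := hc.eventually (lt_mem_nhds h0)
    rw [Metric.eventually_nhds_iff] at this
    obtain ⟨δ, hδ, h⟩ := this
    exact ⟨δ, hδ, fun A hA => h (by simpa using hA)⟩
  set ε := min δ 1 / (2 * L) with hε
  have hεpos : 0 < ε := by positivity
  have hεL : ε * L = min δ 1 / 2 := by rw [hε]; field_simp
  have hmin1 : min δ 1 ≤ 1 := min_le_right _ _
  have hminδ : min δ 1 ≤ δ := min_le_left _ _
  have hminpos : 0 < min δ 1 := lt_min hδ one_pos
  have hL1 : 1 ≤ L := le_max_right _ _
  have hε1 : ε ≤ 1 := by nlinarith
  -- the volume identity for small t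
  have hvol : ∀ t : ℝ, 0 ≤ t → t ≤ ε → ∫ x in B, (1 + t • D x).det ∂μ = μ.real B := by
    intro t ht0 htε
    have htL : t * L ≤ min δ 1 / 2 := hεL ▸ mul_le_mul_of_nonneg_right htε hLpos.le
    let f : E → E := fun x => x + t • h x
    have hfd : ∀ x ∈ B, HasFDerivWithinAt f (1 + t • D x) B x := fun x hx =>
      ((hasFDerivAt_id x).add ((hhd x hx).const_smul t)).hasFDerivWithinAt
    have hinj : InjOn f B := by
      intro x hx y hy hxy
      have e1 : x - y = -(t • (h x - h y)) := by
        have : x + t • h x = y + t • h y := hxy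
        rw [smul_sub]
        linear_combination (norm := module) this
      have e2 : ‖x - y‖ ≤ t * (L * ‖x - y‖) := by
        conv_lhs => rw [e1, norm_neg, norm_smul, Real.norm_eq_abs, abs_of_nonneg ht0]
        exact mul_le_mul_of_nonneg_left (hLip x hx y hy) ht0
      have e3 : ‖x - y‖ ≤ 0 := by nlinarith [norm_nonneg (x - y)]
      exact sub_eq_zero.mp (norm_le_zero_iff.mp e3)
    have himg : f '' B = B := by
      apply Subset.antisymm
      · rintro _ ⟨x, hx, rfl⟩
        have hrx : r x ∈ B := by simpa [hB] using (h1 x hx).le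
        have := hBconv hx hrx (show 0 ≤ 1 - t by linarith) ht0 (by ring)
        convert this using 1
        simp only [f, h, smul_sub, sub_smul, one_smul]
        abel
      · intro y hy
        let g : E → E := fun x => y - t • B.indicator h x
        have hg : ContractingWith (1 / 2) g := by
          refine ⟨by norm_num, LipschitzWith.of_dist_le_mul fun a b => ?_⟩
          have e1 : g a - g b = -(t • (B.indicator h a - B.indicator h b)) := by
            simp only [g, smul_sub]; abel
          rw [dist_eq_norm, dist_eq_norm, e1, norm_neg, norm_smul, Real.norm_eq_abs,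
            abs_of_nonneg ht0]
          have := lipschitz_trunc h L hLpos.le hLip hh0 a b
          have e2 : t * ‖B.indicator h a - B.indicator h b‖ ≤ t * (L * ‖a - b‖) :=
            mul_le_mul_of_nonneg_left this ht0
          have e3 : ((1 / 2 : NNReal) : ℝ) = 1 / 2 := by norm_num
          rw [e3]
          nlinarith [norm_nonneg (a - b)]
        let x := ContractingWith.fixedPoint g hg
        have hx : g x = x := hg.fixedPoint_isFixedPt
        by_cases hxB : x ∈ B
        · refine ⟨x, hxB, ?_⟩
          have : y - t • h x = x := by simpa [g, indicator_of_mem hxB] using hx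
          simp only [f]
          linear_combination (norm := module) - this
        · exfalso
          have : y = x := by simpa [g, indicator_of_notMem hxB] using hx
          exact hxB (this ▸ hy)
    have hcv := integral_image_eq_integral_abs_det_fderiv_smul μ hBm hfd hinj (fun _ => (1 : ℝ))
    rw [himg] at hcv
    simp only [integral_const, MeasurableSet.univ, measureReal_restrict_apply, univ_inter,
      smul_eq_mul, mul_one] at hcv
    rw [hcv]
    refine setIntegral_congr_fun hBm fun x hx => ?_
    refine (abs_of_pos (hδdet _ ?_)).symm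
    rw [norm_smul, Real.norm_eq_abs, abs_of_nonneg ht0]
    have := mul_le_mul_of_nonneg_left (hDL x hx) ht0
    linarith
  -- interpolation
  let n := finrank ℝ E
  let v : Fin (n + 1) → ℝ := fun j => ε * (j : ℕ) / (n + 1)
  have hv : Function.Injective v := by
    intro i j hij
    have hn : (0 : ℝ) < n + 1 := by positivity
    have : ((i : ℕ) : ℝ) = (j : ℕ) := by
      simp only [v] at hij
      field_simp at hij
      exact hij
    exact Fin.ext (by exact_mod_cast this)
  obtain ⟨w, hw1, hw⟩ := det_interp (E := E) v hv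
  have hint : ∀ t : ℝ, IntegrableOn (fun x => (1 + t • D x).det) B μ := by
    intro t
    refine ContinuousOn.integrableOn_compact hBc ?_
    exact ContinuousLinearMap.continuous_det.comp_continuousOn
      (continuousOn_const.add (hDc.const_smul t))
  have hfin : ∫ x in B, (1 + D x).det ∂μ = μ.real B := by
    rw [setIntegral_congr_fun hBm (g := fun x => ∑ j, w j * (1 + v j • D x).det)
      (fun x _ => hw (D x))]
    rw [integral_finsetSum _ (fun j _ => (hint (v j)).const_mul (w j))]
    have : ∀ j, ∫ x in B, w j * (1 + v j • D x).det ∂μ = w j * μ.real B := by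
      intro j
      rw [integral_const_mul, hvol]
      · simp only [v]; positivity
      · simp only [v]
        have hn : (0 : ℝ) < n + 1 := by positivity
        rw [div_le_iff₀ hn]
        have : ((j : ℕ) : ℝ) ≤ n + 1 := by exact_mod_cast j.2.le
        exact mul_le_mul_of_nonneg_left this hεpos.le
    simp_rw [this]
    rw [← Finset.sum_mul, hw1, one_mul]
  have hzero : ∀ x ∈ B, (1 + D x).det = 0 := by
    intro x hx
    have hD : 1 + D x = fderiv ℝ r x := by simp [D]
    rw [hD]
    have hud : UniqueDiffWithinAt ℝ B x :=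
      uniqueDiffOn_convex hBconv (by
        rw [hB, interior_closedBall _ one_ne_zero]
        exact ⟨0, mem_ball_self one_pos⟩) x hx
    have e1 := (hrd x hx).norm_sq.hasFDerivWithinAt (s := B)
    have e2 : HasFDerivWithinAt (fun z => ‖r z‖ ^ 2) (0 : E →L[ℝ] ℝ) B x := by
      refine (hasFDerivWithinAt_const (1 : ℝ) x B).congr (fun z hz => ?_) ?_
      · rw [h1 z hz]; norm_num
      · rw [h1 x hx]; norm_num
    have e3 := hud.eq e1 e2
    by_contra hdet
    have hsurj : Function.Surjective (fderiv ℝ r x) := by
      have hu : IsUnit (fderiv ℝ r x : E →ₗ[ℝ] E) := by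
        rw [LinearMap.isUnit_iff_isUnit_det]
        exact isUnit_iff_ne_zero.mpr hdet
      exact (LinearMap.isUnit_iff_range_eq_top _).mp hu |> LinearMap.range_eq_top.mp
    obtain ⟨u, hu⟩ := hsurj (r x)
    have e4 := congrArg (fun φ : E →L[ℝ] ℝ => φ u) e3
    simp [hu, h1 x hx] at e4
  have hpos : 0 < μ.real B := by
    have h1 : 0 < μ B := measure_closedBall_pos μ 0 one_pos
    exact ENNReal.toReal_pos h1.ne' hBc.measure_lt_top.ne
  rw [setIntegral_congr_fun hBm (g := fun _ => (0 : ℝ)) hzero] at hfin
  simp at hfin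
  linarith

end Pool.Agent.Lib.Brouwer
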