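import Mathlib
import Pool.Agent.Lib.Brouwer.Core

/-!
Brouwer fixed point theorem and its vector field forms.
-/

open Metric Set Module Filter Topology
open scoped InnerProductSpace

namespace Pool.Agent.Lib.Brouwer

section Euclid

variable {E : Type*} [NormedAddCommGroup E] [InnerProductSpace ℝ E] [FiniteDimensional ℝ E]

theorem exists_zero_smooth (W : E → E) (hW : ContDiff ℝ 1 W) (ε : ℝ) (hε : 0 < ε) :
    ∃ x ∈ closedBall (0 : E) 1, (1 - ‖x‖ ^ 2) • W x + ε • x = 0 := by
  by_contra hcon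
  push Not at hcon
  let φ : E → E := fun x => (1 - ‖x‖ ^ 2) • W x + ε • x
  have hφ : ContDiff ℝ 1 φ :=
    ((contDiff_const.sub (contDiff_norm_sq ℝ)).smul hW).add (contDiff_id.const_smul ε)
  refine no_retraction (fun x => ‖φ x‖⁻¹ • φ x) ?_ ?_ ?_
  · intro x hx
    have h0 : φ x ≠ 0 := hcon x hx
    exact ((hφ.contDiffAt.norm ℝ h0).inv (norm_ne_zero_iff.mpr h0)).smul hφ.contDiffAt
  · intro x hx
    have h0 : φ x ≠ 0 := hcon x hx
    rw [norm_smul, norm_inv, norm_norm, inv_mul_cancel₀ (norm_ne_zero_iff.mpr h0)]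
  · intro x hx
    have : φ x = ε • x := by simp [φ, hx]
    rw [this, norm_smul, hx, Real.norm_eq_abs, abs_of_pos hε, mul_one, smul_smul,
      inv_mul_cancel₀ hε.ne', one_smul]

/-- A continuous vector field on the whole space has, in the closed unit ball, a zero or a
boundary point where it does not point outwards. -/
theorem exists_zero_or_inward (W : E → E) (hW : Continuous W) :
    ∃ x ∈ closedBall (0 : E) 1, W x = 0 ∨ (‖x‖ = 1 ∧ ⟪W x, x⟫_ℝ ≤ 0) := by
  have hstep : ∀ ε : ℝ, 0 < ε → ∃ x ∈ closedBall (0 : E) 1,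
      ‖(1 - ‖x‖ ^ 2) • W x‖ ≤ 2 * ε ∧ ⟪W x, x⟫_ℝ ≤ ε := by
    intro ε hε
    have huc : UniformContinuousOn W (closedBall (0 : E) 2) :=
      (isCompact_closedBall _ _).uniformContinuousOn_of_continuous hW.continuousOn
    obtain ⟨δ, hδ, hWδ⟩ := Metric.uniformContinuousOn_iff.mp huc ε hε
    obtain ⟨g, hg, hgW⟩ := hW.exists_contDiff_dist_le_of_forall_mem_ball_dist_le
      (lt_min one_pos hδ)
    obtain ⟨x, hx, hx0⟩ := exists_zero_smooth g (hg.of_le (by simp)) ε hε
    have hx1 : ‖x‖ ≤ 1 := by simpa using hx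
    have hgx : ‖g x - W x‖ ≤ ε := by
      rw [← dist_eq_norm]
      refine hgW x ε fun y hy => ?_
      rw [mem_ball, lt_min_iff] at hy
      refine (hWδ y ?_ x ?_ hy.2).le
      · rw [mem_closedBall, dist_zero_right]
        have := norm_le_norm_add_norm_sub' y x
        rw [dist_eq_norm] at hy
        linarith [hy.1]
      · rw [mem_closedBall, dist_zero_right]; linarith
    have hs0 : 0 ≤ 1 - ‖x‖ ^ 2 := by nlinarith [norm_nonneg x]
    have hs1 : 1 - ‖x‖ ^ 2 ≤ 1 := by nlinarith [norm_nonneg x]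
    refine ⟨x, hx, ?_, ?_⟩
    · have e : (1 - ‖x‖ ^ 2) • W x = -(ε • x) - (1 - ‖x‖ ^ 2) • (g x - W x) := by
        rw [smul_sub]
        linear_combination (norm := module) hx0
      rw [e]
      refine (norm_sub_le _ _).trans ?_
      rw [norm_neg, norm_smul, norm_smul, Real.norm_eq_abs, Real.norm_eq_abs, abs_of_pos hε,
        abs_of_nonneg hs0]
      nlinarith [norm_nonneg (g x - W x), norm_nonneg x]
    · have hlt : 0 < 1 - ‖x‖ ^ 2 := by
        rcases hs0.lt_or_eq with h | h
        · exact h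
        · exfalso
          rw [← h, zero_smul, zero_add] at hx0
          have : x = 0 := (smul_eq_zero.mp hx0).resolve_left hε.ne'
          rw [this] at h
          simp at h
      have e1 := congrArg (fun v => ⟪v, x⟫_ℝ) hx0
      simp only [inner_add_left, real_inner_smul_left, real_inner_self_eq_norm_sq,
        inner_zero_left] at e1
      have e2 : ⟪g x, x⟫_ℝ ≤ 0 := by
        by_contra hpos
        push Not at hpos
        have := mul_pos hlt hpos
        nlinarith [sq_nonneg ‖x‖]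
      have e3 : ⟪W x, x⟫_ℝ = ⟪g x, x⟫_ℝ - ⟪g x - W x, x⟫_ℝ := by
        rw [inner_sub_left]; ring
      have e4 := abs_real_inner_le_norm (g x - W x) x
      have e5 := neg_abs_le ⟪g x - W x, x⟫_ℝ
      nlinarith [norm_nonneg (g x - W x), norm_nonneg x]
  choose x hx hx1 hx2 using fun n : ℕ => hstep (1 / ((n : ℝ) + 1)) Nat.one_div_pos_of_nat
  obtain ⟨a, ha, ψ, hψ, hlim⟩ := (isCompact_closedBall (0 : E) 1).tendsto_subseq hx
  have hε : Tendsto (fun n : ℕ => 1 / (((ψ n : ℕ) : ℝ) + 1)) atTop (𝓝 0) :=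
    tendsto_one_div_add_atTop_nhds_zero_nat.comp hψ.tendsto_atTop
  have c1 : Continuous fun y : E => ‖(1 - ‖y‖ ^ 2) • W y‖ := by fun_prop
  have c2 : Continuous fun y : E => ⟪W y, y⟫_ℝ := hW.inner continuous_id
  have l1 : ‖(1 - ‖a‖ ^ 2) • W a‖ ≤ 0 := by
    have h2 := hε.const_mul 2
    rw [mul_zero] at h2
    exact le_of_tendsto_of_tendsto' ((c1.tendsto a).comp hlim) h2 fun n => hx1 (ψ n)
  have l2 : ⟪W a, a⟫_ℝ ≤ 0 :=
    le_of_tendsto_of_tendsto' ((c2.tendsto a).comp hlim) hε fun n => hx2 (ψ n)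
  refine ⟨a, ha, ?_⟩
  rcases smul_eq_zero.mp (norm_le_zero_iff.mp l1) with h | h
  · right
    refine ⟨?_, l2⟩
    have : ‖a‖ ^ 2 = 1 := by linarith
    exact (sq_eq_sq₀ (norm_nonneg a) zero_le_one).mp (by simpa using this)
  · exact Or.inl h

/-- Brouwer for a continuous map of the whole space with values in the closed unit ball. -/
theorem exists_fixedPoint_of_range (f : E → E) (hf : Continuous f)
    (hB : ∀ x, ‖f x‖ ≤ 1) : ∃ x, f x = x := by
  obtain ⟨x, -, h | ⟨h1, h2⟩⟩ := exists_zero_or_inward (fun x => x - f x) (continuous_id.sub hf)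
  · exact ⟨x, (sub_eq_zero.mp h).symm⟩
  · refine ⟨x, ?_⟩
    have e : ‖x - f x‖ ^ 2 ≤ 0 := by
      rw [inner_sub_left, real_inner_self_eq_norm_sq, h1] at h2
      rw [norm_sub_sq_real, h1, real_inner_comm]
      nlinarith [hB x, norm_nonneg (f x)]
    have : ‖x - f x‖ = 0 := by nlinarith [norm_nonneg (x - f x)]
    exact (sub_eq_zero.mp (norm_eq_zero.mp this)).symm

end Euclid

section Normed

variable {F : Type*} [NormedAddCommGroup F] [NormedSpace ℝ F] [FiniteDimensional ℝ F]

/-- A continuous map from a finite dimensional space to its dual which is positive in the radial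
direction outside a ball has a zero. -/
theorem exists_zero_of_pos_radial (g : F → StrongDual ℝ F) (hg : Continuous g) (R : ℝ)
    (hR : ∀ z, R < ‖z‖ → 0 < g z z) : ∃ z, g z = 0 := by
  let E := EuclideanSpace ℝ (Fin (finrank ℝ F))
  let e0 : F ≃L[ℝ] E := toEuclidean
  let c : ℝ := (|R| + 1) * (‖(e0 : F →L[ℝ] E)‖ + 1)
  have hc : 0 < c := by positivity
  let e : E →L[ℝ] F := c • (e0.symm : E →L[ℝ] F)
  let W : E → E := fun ξ => (InnerProductSpace.toDual ℝ E).symm ((g (e ξ)).comp e)
  have hW : Continuous W := by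
    refine (InnerProductSpace.toDual ℝ E).symm.continuous.comp ?_
    exact (hg.comp e.continuous).clm_comp continuous_const
  obtain ⟨x, -, h | ⟨h1, h2⟩⟩ := exists_zero_or_inward W hW
  · refine ⟨e x, ?_⟩
    have h0 : (g (e x)).comp e = 0 := by
      simpa [W] using h
    ext v
    have := congrArg (fun φ : E →L[ℝ] ℝ => φ (c⁻¹ • e0 v)) h0
    simpa [e, smul_smul, hc.ne'] using this
  · exfalso
    have h3 : ⟪W x, x⟫_ℝ = g (e x) (e x) := by
      simp [W, InnerProductSpace.toDual_symm_apply]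
    have h4 : R < ‖e x‖ := by
      have e1 : e0 (e x) = c • x := by simp [e]
      have e2 : ‖e0 (e x)‖ ≤ ‖(e0 : F →L[ℝ] E)‖ * ‖e x‖ := (e0 : F →L[ℝ] E).le_opNorm _
      rw [e1, norm_smul, h1, Real.norm_eq_abs, abs_of_pos hc, mul_one] at e2
      by_contra hle
      push Not at hle
      have e3 : ‖e x‖ ≤ |R| := hle.trans (le_abs_self R)
      have e4 := mul_le_mul_of_nonneg_left e3 (norm_nonneg (e0 : F →L[ℝ] E))
      simp only [c] at e2
      nlinarith [abs_nonneg R, norm_nonneg (e0 : F →L[ℝ] E)]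
    have := hR _ h4
    linarith

/-- Brouwer for a bounded continuous map of a finite dimensional normed space. -/
theorem exists_fixedPoint_of_bounded (f : F → F) (hf : Continuous f) (R : ℝ)
    (hB : ∀ x, ‖f x‖ ≤ R) : ∃ x, f x = x := by
  let E := EuclideanSpace ℝ (Fin (finrank ℝ F))
  let e0 : F ≃L[ℝ] E := toEuclidean
  let c : ℝ := (|R| + 1) * (‖(e0 : F →L[ℝ] E)‖ + 1)
  have hc : 0 < c := by positivity
  obtain ⟨x, hx⟩ := exists_fixedPoint_of_range (fun ξ : E => c⁻¹ • e0 (f (e0.symm (c • ξ))))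
    (by fun_prop) (by
      intro ξ
      rw [norm_smul, norm_inv, Real.norm_eq_abs, abs_of_pos hc, inv_mul_le_iff₀ hc, mul_one]
      have e2 : ‖e0 (f (e0.symm (c • ξ)))‖ ≤ ‖(e0 : F →L[ℝ] E)‖ * ‖f (e0.symm (c • ξ))‖ :=
        (e0 : F →L[ℝ] E).le_opNorm _
      have e3 := mul_le_mul_of_nonneg_left ((hB (e0.symm (c • ξ))).trans (le_abs_self R))
        (norm_nonneg (e0 : F →L[ℝ] E))
      simp only [c]
      nlinarith [abs_nonneg R, norm_nonneg (e0 : F →L[ℝ] E)])
  refine ⟨e0.symm (c • x), ?_⟩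
  have : e0 (f (e0.symm (c • x))) = c • x := by
    conv_rhs => rw [← hx]
    rw [smul_smul, mul_inv_cancel₀ hc.ne', one_smul]
  apply e0.injective
  rw [this, e0.apply_symm_apply]

/-- Brouwer fixed point theorem: a continuous self-map of a nonempty compact convex subset of a
finite dimensional real normed space has a fixed point. -/
theorem brouwer (K : Set F) (hKc : IsCompact K) (hK : Convex ℝ K) (hne : K.Nonempty)
    (f : F → F) (hf : ContinuousOn f K) (hfK : MapsTo f K K) : ∃ x ∈ K, f x = x := by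
  classical
  have hstep : ∀ ε : ℝ, 0 < ε → ∃ x ∈ K, ‖f x - x‖ ≤ 2 * ε := by
    intro ε hε
    have huc := hKc.uniformContinuousOn_of_continuous hf
    obtain ⟨δ, hδ, hfδ⟩ := Metric.uniformContinuousOn_iff.mp huc ε hε
    let t : F → Set F := fun z => {w | w ∈ K ∧ ∀ p ∈ K, dist p z < δ / 4 → dist w (f p) ≤ ε}
    have ht : ∀ z, Convex ℝ (t z) := by
      intro z
      have : t z = K ∩ ⋂ p ∈ {p | p ∈ K ∧ dist p z < δ / 4}, closedBall (f p) ε := by
        ext w
        simp [t]
      rw [this]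
      exact hK.inter (convex_iInter₂ fun p _ => convex_closedBall _ _)
    have hloc : ∀ x : F, ∃ c : F, ∀ᶠ y in 𝓝 x, c ∈ t y := by
      intro x
      by_cases hx : ∃ q ∈ K, dist q x < δ / 2
      · obtain ⟨q, hq, hqx⟩ := hx
        refine ⟨f q, ?_⟩
        filter_upwards [ball_mem_nhds x (show 0 < δ / 4 by positivity)] with y hy
        refine ⟨hfK hq, fun p hp hpy => (hfδ q hq p hp ?_).le⟩
        rw [mem_ball] at hy
        have := dist_triangle4 q x y p
        rw [dist_comm x y, dist_comm y p] at this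
        linarith
      · push Not at hx
        obtain ⟨q, hq⟩ := hne
        refine ⟨q, ?_⟩
        filter_upwards [ball_mem_nhds x (show 0 < δ / 4 by positivity)] with y hy
        refine ⟨hq, fun p hp hpy => ?_⟩
        exfalso
        rw [mem_ball] at hy
        have := dist_triangle p y x
        linarith [hx p hp]
    obtain ⟨g, hg⟩ := exists_continuous_forall_mem_convex_of_local_const ht hloc
    obtain ⟨R, hR⟩ := hKc.isBounded.exists_norm_le
    obtain ⟨x, hx⟩ := exists_fixedPoint_of_bounded g g.continuous R fun x => hR _ (hg x).1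
    have hxK : x ∈ K := hx ▸ (hg x).1
    refine ⟨x, hxK, ?_⟩
    have := (hg x).2 x hxK (by simpa using hδ)
    rw [hx, dist_comm, dist_eq_norm] at this
    linarith
  have hc : ContinuousOn (fun x => ‖f x - x‖) K := (hf.sub continuousOn_id).norm
  obtain ⟨x, hx, hmin⟩ := hKc.exists_isMinOn hne hc
  refine ⟨x, hx, sub_eq_zero.mp (norm_le_zero_iff.mp ?_)⟩
  refine le_of_forall_pos_le_add fun ε hε => ?_
  obtain ⟨y, hy, hy2⟩ := hstep (ε / 2) (by positivity)
  have := hmin hy
  simp only [mem_ofPred_eq] at this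
  linarith

end Normed

end Pool.Agent.Lib.Brouwer
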